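import Mathlib
import Pool.Agent.H469R2.NK.ExpSum
import Pool.Agent.H373R2.T7.Vau

set_option autoImplicit false

/-! Exponential sums `∑ e(Z/m)`, uniform version. -/

namespace Pool.Agent.H895R3.NK
open Finset
open Pool.Agent.H469R2.NK (e norm_e e_add conj_e norm_sum_neg e_zero SS SS_le exp_sum_bound D)

theorem exp_unif (Q : ℕ) (hQ : 1 ≤ Q) :
    ∃ η : ℝ, 0 < η ∧ η ≤ 1 ∧ ∃ C : ℝ, 1 ≤ C ∧ ∀ (N a L : ℕ) (Z : ℝ), 1 ≤ N → N ≤ a → L ≤ N → a + L ≤ 3 * N →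
      0 < Z → Z ≤ (N : ℝ) ^ (Q + 1 : ℕ) →
      ‖∑ n ∈ range L, e (Z / ((a + n : ℕ) : ℝ))‖ ≤ C * ((N : ℝ) ^ 2 / Z + (N : ℝ) ^ (1 - η)) := by
  obtain ⟨η, hη0, hη1, C, hC, h⟩ := exp_sum_bound Q hQ (1 / 2) (by norm_num)
  refine ⟨η, hη0, hη1, C + 18, by linarith, ?_⟩
  intro N a L Z hN ha hL haL hZ0 hZ2
  have hN' : (1 : ℝ) ≤ N := by exact_mod_cast hN
  have hNpos : (0 : ℝ) < N := by linarith
  have hp : 0 ≤ (N : ℝ) ^ 2 / Z := by positivity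
  have hq : 0 ≤ (N : ℝ) ^ (1 - η) := by positivity
  rcases le_or_gt ((N : ℝ) ^ (1 + 1 / 2 : ℝ)) Z with hc | hc
  · refine (h N a L Z hN ha hL haL hc hZ2).trans ?_
    calc C * (N : ℝ) ^ (1 - η) ≤ (C + 18) * (N : ℝ) ^ (1 - η) := by
          apply mul_le_mul_of_nonneg_right (by linarith) hq
      _ ≤ _ := by
          apply mul_le_mul_of_nonneg_left _ (by linarith)
          linarith
  · have hSS : ∑ n ∈ range L, e (Z / ((a + n : ℕ) : ℝ)) = SS Z a L [] := by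
      unfold SS
      simp only [List.sum_nil, Nat.sub_zero]
      refine sum_congr rfl fun n _ => ?_
      congr 1
      simp only [D, pow_zero, Nat.factorial_zero, Nat.cast_one, mul_one, zero_add, pow_one]
      rw [mul_one_div]
    rcases lt_or_ge N 16 with hsmall | hbig
    · have htriv : ‖∑ n ∈ range L, e (Z / ((a + n : ℕ) : ℝ))‖ ≤ N := by
        refine (norm_sum_le _ _).trans ?_
        simp only [norm_e, sum_const, card_range, nsmul_eq_mul, mul_one]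
        exact_mod_cast hL
      refine htriv.trans ?_
      have h16 : (N : ℝ) ≤ 16 := by exact_mod_cast hsmall.le
      have h1 : (1 : ℝ) ≤ (N : ℝ) ^ (1 - η) := Real.one_le_rpow hN' (by linarith)
      calc (N : ℝ) ≤ (C + 18) * 1 := by linarith
        _ ≤ (C + 18) * ((N : ℝ) ^ 2 / Z + (N : ℝ) ^ (1 - η)) := by
          apply mul_le_mul_of_nonneg_left _ (by linarith)
          linarith
    · rw [hSS]
      have h16 : (16 : ℝ) ≤ N := by exact_mod_cast hbig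
      have h1 := SS_le Z hZ0 N a L hN ha haL [] (by simp) (by
        simp only [List.length_nil, zero_add, Nat.factorial_one, Nat.cast_one, List.prod_nil, mul_one]
        have e1 : (2 : ℝ) ≤ (N : ℝ) ^ (1 / 2 : ℝ) := by
          calc (2 : ℝ) ≤ (16 : ℝ) ^ (1 / 2 : ℝ) := by
                rw [show (16 : ℝ) = 4 ^ (2 : ℝ) by norm_num, ← Real.rpow_mul (by norm_num)]; norm_num
            _ ≤ _ := by gcongr
        have e2 : (N : ℝ) ^ (1 + 1 / 2 : ℝ) * (N : ℝ) ^ (1 / 2 : ℝ) = (N : ℝ) ^ 2 := by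
          rw [← Real.rpow_add hNpos, ← Real.rpow_natCast]; norm_num
        rw [mul_one_div, ← mul_div_assoc, div_le_one (by positivity), ← e2]
        calc 2 * Z ≤ (N : ℝ) ^ (1 / 2 : ℝ) * (N : ℝ) ^ (1 + 1 / 2 : ℝ) := by gcongr
          _ = _ := by ring)
      simp only [List.length_nil, zero_add, Nat.factorial_one, Nat.cast_one, List.prod_nil, mul_one] at h1
      refine h1.trans ?_
      calc 2 * (3 * (N : ℝ)) ^ 2 / Z = 18 * ((N : ℝ) ^ 2 / Z) := by ring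
        _ ≤ (C + 18) * ((N : ℝ) ^ 2 / Z) := by
          apply mul_le_mul_of_nonneg_right (by linarith) hp
        _ ≤ _ := by
          apply mul_le_mul_of_nonneg_left _ (by linarith)
          linarith

theorem exp_Ioc (Q : ℕ) (hQ : 1 ≤ Q) :
    ∃ η : ℝ, 0 < η ∧ η ≤ 1 ∧ ∃ C : ℝ, 1 ≤ C ∧ ∀ (a b : ℕ) (Z : ℝ), b ≤ 2 * a + 1 →
      0 < Z → Z ≤ ((a + 1 : ℕ) : ℝ) ^ (Q + 1 : ℕ) →
      ‖∑ n ∈ Ioc a b, e (Z / (n : ℝ))‖ ≤ C * (((a + 1 : ℕ) : ℝ) ^ 2 / Z + ((a + 1 : ℕ) : ℝ) ^ (1 - η)) := by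
  obtain ⟨η, hη0, hη1, C, hC, h⟩ := exp_unif Q hQ
  refine ⟨η, hη0, hη1, C, hC, fun a b Z hb hZ0 hZ => ?_⟩
  have h1 := h (a + 1) (a + 1) (b - a) Z (by omega) le_rfl (by omega) (by omega) hZ0 hZ
  have e1 : ∑ n ∈ Ioc a b, e (Z / (n : ℝ)) = ∑ n ∈ range (b - a), e (Z / ((a + 1 + n : ℕ) : ℝ)) := by
    have e2 : Ioc a b = Ico (a + 1) (b + 1) := by
      ext x; simp only [mem_Ioc, mem_Ico]; omega
    rw [e2, Finset.sum_Ico_eq_sum_range]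
    rw [show b + 1 - (a + 1) = b - a by omega]
  rw [e1]
  exact h1

/-- version on a dyadic block, phase of either sign -/
theorem exp_block (Q : ℕ) (hQ : 1 ≤ Q) :
    ∃ η : ℝ, 0 < η ∧ η ≤ 1 ∧ ∃ C : ℝ, 1 ≤ C ∧ ∀ (M a b : ℕ) (Z : ℝ), 1 ≤ M → M ≤ a → b ≤ 2 * M →
      Z ≠ 0 → |Z| ≤ (M : ℝ) ^ (Q + 1 : ℕ) →
      ‖∑ n ∈ Ioc a b, e (Z / (n : ℝ))‖ ≤ C * ((M : ℝ) ^ 2 / |Z| + (M : ℝ) ^ (1 - η)) := by
  obtain ⟨η, hη0, hη1, C, hC, h⟩ := exp_Ioc Q hQ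
  refine ⟨η, hη0, hη1, 4 * C, by linarith, fun M a b Z hM ha hb hZ0 hZ => ?_⟩
  have hZp : 0 < |Z| := abs_pos.2 hZ0
  have hM0 : (1 : ℝ) ≤ M := by exact_mod_cast hM
  rcases Nat.lt_or_ge a b with hab | hab
  · have hsign : ‖∑ n ∈ Ioc a b, e (Z / (n : ℝ))‖ = ‖∑ n ∈ Ioc a b, e (|Z| / (n : ℝ))‖ := by
      rcases abs_choice Z with hz | hz
      · rw [hz]
      · rw [hz]
        have : ∑ n ∈ Ioc a b, e (-Z / (n : ℝ)) = (starRingEnd ℂ) (∑ n ∈ Ioc a b, e (Z / (n : ℝ))) := by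
          rw [map_sum]
          refine sum_congr rfl fun n _ => ?_
          rw [conj_e, neg_div]
        rw [this, Complex.norm_conj]
    rw [hsign]
    have hMa : (M : ℝ) ≤ ((a + 1 : ℕ) : ℝ) := by exact_mod_cast (by omega : M ≤ a + 1)
    have hMa2 : ((a + 1 : ℕ) : ℝ) ≤ 2 * M := by exact_mod_cast (by omega : a + 1 ≤ 2 * M)
    have h1 := h a b |Z| (by omega) hZp (hZ.trans (by gcongr))
    refine h1.trans ?_
    have e1 : ((a + 1 : ℕ) : ℝ) ^ 2 / |Z| ≤ 4 * ((M : ℝ) ^ 2 / |Z|) := by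
      rw [← mul_div_assoc]
      apply div_le_div_of_nonneg_right _ hZp.le
      calc ((a + 1 : ℕ) : ℝ) ^ 2 ≤ (2 * M) ^ 2 := by gcongr
        _ = _ := by ring
    have e2 : ((a + 1 : ℕ) : ℝ) ^ (1 - η) ≤ 4 * (M : ℝ) ^ (1 - η) := by
      calc ((a + 1 : ℕ) : ℝ) ^ (1 - η) ≤ (2 * M) ^ (1 - η) := Real.rpow_le_rpow (by positivity) hMa2 (by linarith)
        _ = 2 ^ (1 - η) * (M : ℝ) ^ (1 - η) := Real.mul_rpow (by norm_num) (by linarith)
        _ ≤ 4 * (M : ℝ) ^ (1 - η) := by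
          apply mul_le_mul_of_nonneg_right _ (by positivity)
          calc (2 : ℝ) ^ (1 - η) ≤ 2 ^ (1 : ℝ) := Real.rpow_le_rpow_of_exponent_le (by norm_num) (by linarith)
            _ ≤ 4 := by norm_num
    calc C * (((a + 1 : ℕ) : ℝ) ^ 2 / |Z| + ((a + 1 : ℕ) : ℝ) ^ (1 - η)) ≤
        C * (4 * ((M : ℝ) ^ 2 / |Z|) + 4 * (M : ℝ) ^ (1 - η)) := by gcongr
      _ = _ := by ring
  · rw [Ioc_eq_empty (by omega), sum_empty, norm_zero]
    positivity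

end Pool.Agent.H895R3.NK
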