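import Pool.Agent.H895R3.NK.E1

set_option autoImplicit false

/-! Bilinear sums with the phase `ξ/(ml)`. -/

namespace Pool.Agent.H895R3.NK
open Finset
open Pool.Agent.H469R2.NK (e norm_e e_add conj_e norm_sum_neg e_zero)
open Pool.Agent.H373R2.T3 (bilin sum_inv_dist)

/-- the property of the pair `(η, C)` at level `Q` -/
def Blk (Q : ℕ) (η C : ℝ) : Prop := ∀ (M a b : ℕ) (Z : ℝ), 1 ≤ M → M ≤ a → b ≤ 2 * M →
      Z ≠ 0 → |Z| ≤ (M : ℝ) ^ (Q + 1 : ℕ) →
      ‖∑ n ∈ Ioc a b, e (Z / (n : ℝ))‖ ≤ C * ((M : ℝ) ^ 2 / |Z| + (M : ℝ) ^ (1 - η))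

theorem typeII {Q : ℕ} {η C : ℝ} (hC : 1 ≤ C) (hB : Blk Q η C) (ξ : ℝ) (hξ : 0 < ξ)
    (N N' M L : ℕ) (hM : 1 ≤ M) (hL : 1 ≤ L) (a b : ℕ → ℂ) (hcond : ξ ≤ (M : ℝ) ^ (Q + 1 : ℕ)) :
    ‖∑ m ∈ Ioc M (2 * M), ∑ l ∈ Ioc L (2 * L), a m * b l * (if N < m * l ∧ m * l ≤ N' then
      e (ξ / ((m * l : ℕ) : ℝ)) else 0)‖ ^ 2 ≤
      (∑ m ∈ Ioc M (2 * M), ‖a m‖ ^ 2) * ((∑ l ∈ Ioc L (2 * L), ‖b l‖ ^ 2) *
        (M + C * (8 * ((M : ℝ) * L) ^ 2 / ξ * (1 + Real.log (L + 1)) + L * (M : ℝ) ^ (1 - η)))) := by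
  classical
  set g : ℕ → ℕ → ℂ := fun m l => if N < m * l ∧ m * l ≤ N' then e (ξ / ((m * l : ℕ) : ℝ)) else 0 with hg
  set T : ℝ := M + C * (8 * ((M : ℝ) * L) ^ 2 / ξ * (1 + Real.log (L + 1)) + L * (M : ℝ) ^ (1 - η)) with hT
  have hM0 : (0 : ℝ) < M := by exact_mod_cast hM
  have hL0 : (0 : ℝ) < L := by exact_mod_cast hL
  have hgg : ∀ m l l', 0 < m → 0 < l → 0 < l' → g m l * (starRingEnd ℂ) (g m l') =
      if (N < m * l ∧ m * l ≤ N') ∧ (N < m * l' ∧ m * l' ≤ N') then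
      e (ξ * (((l' : ℝ) - l) / (l * l')) / (m : ℝ)) else 0 := by
    intro m l l' hm0 hl0 hl0'
    simp only [hg]
    by_cases h2 : N < m * l ∧ m * l ≤ N'
    · by_cases h3 : N < m * l' ∧ m * l' ≤ N'
      · rw [if_pos h2, if_pos h3, if_pos ⟨h2, h3⟩, conj_e, ← e_add]
        congr 1
        have hm : (m : ℝ) ≠ 0 := by exact_mod_cast hm0.ne'
        have hl : (l : ℝ) ≠ 0 := by exact_mod_cast hl0.ne'
        have hl' : (l' : ℝ) ≠ 0 := by exact_mod_cast hl0'.ne'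
        push_cast
        field_simp
        ring
      · rw [if_neg h3, map_zero, mul_zero, if_neg (fun h => h3 h.2)]
    · rw [if_neg h2, zero_mul, if_neg (fun h => h2 h.1)]
  have hTj : ∀ l ∈ Ioc L (2 * L), ∑ l' ∈ Ioc L (2 * L), ‖∑ m ∈ Ioc M (2 * M), g m l * (starRingEnd ℂ) (g m l')‖ ≤ T := by
    intro l hl
    have hlm := mem_Ioc.1 hl
    have hl0 : 0 < l := by omega
    have hlr : (0 : ℝ) < l := by exact_mod_cast hl0
    have hoff : ∀ l' ∈ (Ioc L (2 * L)).erase l, ‖∑ m ∈ Ioc M (2 * M), g m l * (starRingEnd ℂ) (g m l')‖ ≤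
        C * (4 * ((M : ℝ) * L) ^ 2 / ξ) * (1 / |(l : ℝ) - l'|) + C * (M : ℝ) ^ (1 - η) := by
      intro l' hl'
      rw [mem_erase] at hl'
      have hlm' := mem_Ioc.1 hl'.2
      have hl0' : 0 < l' := by omega
      have hlr' : (0 : ℝ) < l' := by exact_mod_cast hl0'
      have hne : (l' : ℝ) - l ≠ 0 := by
        intro h
        exact hl'.1 (by exact_mod_cast (sub_eq_zero.1 h))
      set Z : ℝ := ξ * (((l' : ℝ) - l) / (l * l')) with hZ
      have hZ0 : Z ≠ 0 := by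
        rw [hZ]
        exact mul_ne_zero hξ.ne' (div_ne_zero hne (by positivity))
      have hZabs : |Z| = ξ * (|(l : ℝ) - l'| / (l * l')) := by
        rw [hZ, abs_mul, abs_of_pos hξ, abs_div, abs_of_pos (show (0 : ℝ) < l * l' by positivity), abs_sub_comm]
      have hdist : |(l : ℝ) - l'| ≤ L := by
        rw [abs_le]
        have h1 : (l : ℝ) ≤ 2 * L := by exact_mod_cast hlm.2
        have h2 : (l' : ℝ) ≤ 2 * L := by exact_mod_cast hlm'.2
        have h3 : (L : ℝ) ≤ l := by exact_mod_cast hlm.1.le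
        have h4 : (L : ℝ) ≤ l' := by exact_mod_cast hlm'.1.le
        constructor <;> linarith
      have hdpos : 0 < |(l : ℝ) - l'| := by
        rw [abs_sub_comm]; exact abs_pos.2 hne
      have hZle : |Z| ≤ (M : ℝ) ^ (Q + 1 : ℕ) := by
        refine le_trans ?_ hcond
        rw [hZabs]
        have h3 : (L : ℝ) ≤ l := by exact_mod_cast hlm.1.le
        have h4 : (1 : ℝ) ≤ l' := by exact_mod_cast hl0'
        have : |(l : ℝ) - l'| / (l * l') ≤ 1 := by
          rw [div_le_one (by positivity)]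
          calc |(l : ℝ) - l'| ≤ L * 1 := by linarith
            _ ≤ l * l' := by gcongr
        calc ξ * (|(l : ℝ) - l'| / (l * l')) ≤ ξ * 1 := by gcongr
          _ = ξ := mul_one _
      have hset : ∑ m ∈ Ioc M (2 * M), g m l * (starRingEnd ℂ) (g m l') =
          ∑ m ∈ Ioc (max M (max (N / l) (N / l'))) (min (2 * M) (min (N' / l) (N' / l'))), e (Z / (m : ℝ)) := by
        have e1 : ∑ m ∈ Ioc M (2 * M), g m l * (starRingEnd ℂ) (g m l') =
            ∑ m ∈ Ioc M (2 * M), if (N < m * l ∧ m * l ≤ N') ∧ (N < m * l' ∧ m * l' ≤ N') then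
              e (Z / (m : ℝ)) else 0 := by
          refine sum_congr rfl fun m hm => ?_
          exact hgg m l l' (by have := (mem_Ioc.1 hm).1; omega) hl0 hl0'
        rw [e1, ← sum_filter]
        apply sum_congr _ fun _ _ => rfl
        ext m
        simp only [mem_filter, mem_Ioc, max_lt_iff, le_min_iff]
        rw [Nat.div_lt_iff_lt_mul hl0, Nat.div_lt_iff_lt_mul hl0', Nat.le_div_iff_mul_le hl0, Nat.le_div_iff_mul_le hl0']
        tauto
      rw [hset]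
      refine (hB M _ _ Z hM (le_max_left _ _) (min_le_left _ _) hZ0 hZle).trans ?_
      rw [mul_add]
      apply add_le_add _ le_rfl
      have h5 : (M : ℝ) ^ 2 / |Z| ≤ 4 * ((M : ℝ) * L) ^ 2 / ξ * (1 / |(l : ℝ) - l'|) := by
        rw [hZabs]
        have h1 : (l : ℝ) ≤ 2 * L := by exact_mod_cast hlm.2
        have h2 : (l' : ℝ) ≤ 2 * L := by exact_mod_cast hlm'.2
        have e3 : (M : ℝ) ^ 2 / (ξ * (|(l : ℝ) - l'| / (l * l'))) = (M : ℝ) ^ 2 * (l * l') / ξ * (1 / |(l : ℝ) - l'|) := by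
          field_simp
        rw [e3]
        apply mul_le_mul_of_nonneg_right _ (by positivity)
        apply div_le_div_of_nonneg_right _ hξ.le
        calc (M : ℝ) ^ 2 * (l * l') ≤ (M : ℝ) ^ 2 * ((2 * L) * (2 * L)) := by gcongr
          _ = _ := by ring
      calc C * ((M : ℝ) ^ 2 / |Z|) ≤ C * (4 * ((M : ℝ) * L) ^ 2 / ξ * (1 / |(l : ℝ) - l'|)) := by gcongr
        _ = _ := by ring
    have hdiag : ‖∑ m ∈ Ioc M (2 * M), g m l * (starRingEnd ℂ) (g m l)‖ ≤ M := by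
      refine (norm_sum_le _ _).trans ?_
      calc ∑ m ∈ Ioc M (2 * M), ‖g m l * (starRingEnd ℂ) (g m l)‖ ≤ ∑ _m ∈ Ioc M (2 * M), (1 : ℝ) := by
            apply sum_le_sum; intro m hm
            rw [hgg m l l (by have := (mem_Ioc.1 hm).1; omega) hl0 hl0]
            split_ifs
            · rw [norm_e]
            · rw [norm_zero]; norm_num
        _ = M := by
            rw [sum_const, Nat.card_Ioc, nsmul_eq_mul, mul_one]
            congr 1; omega
    rw [← add_sum_erase _ _ hl]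
    have hsum := sum_inv_dist (Ioc L (2 * L)) L l (fun l' hl' => by
      have := mem_Ioc.1 hl'
      constructor <;> omega)
    have hcard : ((((Ioc L (2 * L)).erase l).card : ℕ) : ℝ) ≤ L := by
      have h1 : ((Ioc L (2 * L)).erase l).card ≤ (Ioc L (2 * L)).card := card_le_card (erase_subset _ _)
      rw [Nat.card_Ioc] at h1
      exact_mod_cast (by omega : ((Ioc L (2 * L)).erase l).card ≤ L)
    have hMq : 0 ≤ (M : ℝ) ^ (1 - η) := by positivity
    calc _ ≤ (M : ℝ) + ∑ l' ∈ (Ioc L (2 * L)).erase l,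
          (C * (4 * ((M : ℝ) * L) ^ 2 / ξ) * (1 / |(l : ℝ) - l'|) + C * (M : ℝ) ^ (1 - η)) :=
          add_le_add hdiag (sum_le_sum hoff)
      _ = M + (C * (4 * ((M : ℝ) * L) ^ 2 / ξ) * ∑ l' ∈ (Ioc L (2 * L)).erase l, 1 / |(l : ℝ) - l'| +
          (((Ioc L (2 * L)).erase l).card : ℝ) * (C * (M : ℝ) ^ (1 - η))) := by
            rw [sum_add_distrib, mul_sum, sum_const, nsmul_eq_mul]
      _ ≤ M + (C * (4 * ((M : ℝ) * L) ^ 2 / ξ) * (2 * (1 + Real.log (L + 1))) +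
          (L : ℝ) * (C * (M : ℝ) ^ (1 - η))) := by
          gcongr
      _ = T := by rw [hT]; ring
  exact bilin _ _ a b g T hTj

end Pool.Agent.H895R3.NK
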