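import Pool.Agent.H895R3.NK.E2

set_option autoImplicit false
set_option maxHeartbeats 4000000

/-! Sums over primes with the phase `ξ/n`. -/

namespace Pool.Agent.H895R3.NK
open Finset
open Pool.Agent.H469R2.NK (e norm_e e_add conj_e norm_sum_neg e_zero)
open Pool.Agent.H373R2.T3 (bilin sum_inv_dist harm)
open Pool.Agent.H373R2.T7 (vaughan_gen)

/-- fourth root facts -/
lemma fourth (N : ℕ) (U : ℕ) (hU : U = Nat.sqrt (Nat.sqrt N)) :
    U * U ≤ Nat.sqrt N ∧ Nat.sqrt N * Nat.sqrt N ≤ N ∧ N < (U + 1) ^ 4 := by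
  have h1 := Nat.sqrt_le (Nat.sqrt N)
  have h2 := Nat.sqrt_le N
  have h4 : Nat.sqrt N < (U + 1) * (U + 1) := by rw [hU]; exact Nat.lt_succ_sqrt _
  have h5 : N < (Nat.sqrt N + 1) * (Nat.sqrt N + 1) := Nat.lt_succ_sqrt _
  refine ⟨by rw [hU]; exact h1, h2, ?_⟩
  have h6 : Nat.sqrt N + 1 ≤ (U + 1) * (U + 1) := h4
  calc N < (Nat.sqrt N + 1) * (Nat.sqrt N + 1) := h5
    _ ≤ ((U + 1) * (U + 1)) * ((U + 1) * (U + 1)) := Nat.mul_le_mul h6 h6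
    _ = (U + 1) ^ 4 := by ring

theorem prime_exp_bound (d : ℕ) :
    ∃ η : ℝ, 0 < η ∧ η ≤ 1 ∧ ∃ C : ℝ, 1 ≤ C ∧ ∀ N N' : ℕ, 10 ^ 4 ≤ N → N ≤ N' → N' ≤ 2 * N →
      ∀ ξ : ℝ, 0 < ξ → ξ ≤ (N : ℝ) ^ d →
      ‖∑ n ∈ Ioc N N', ((ArithmeticFunction.vonMangoldt n : ℝ) : ℂ) * e (ξ / (n : ℝ))‖ ≤
        8 * (1 + Real.log (4 * N)) ^ 5 * Real.sqrt (C * ((N : ℝ) ^ 2 * ((N : ℝ) ^ (-(η / 4))) +
          (N : ℝ) ^ 3 * (1 + Real.log (4 * N)) / ξ)) +
        3 * (1 + Real.log (4 * N)) * (C * ((N : ℝ) ^ 2 / ξ + (N : ℝ) * (N : ℝ) ^ (-(η / 4))) * (1 + Real.log (4 * N))) := by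
  obtain ⟨η₁, hη₁0, hη₁1, C₁, hC₁, hI⟩ := exp_Ioc (8 * d + 1) (by omega)
  obtain ⟨η₂, hη₂0, hη₂1, C₂, hC₂, hII⟩ := exp_block (8 * d + 1) (by omega)
  set η := min η₁ η₂ with hη
  have hη0 : 0 < η := lt_min hη₁0 hη₂0
  have hηa : η ≤ η₁ := min_le_left _ _
  have hηb : η ≤ η₂ := min_le_right _ _
  refine ⟨η, hη0, hηa.trans hη₁1, 8 * C₁ + 80 * C₂, by linarith, ?_⟩
  intro N N' hN hNN' hN' ξ hξ0 hξ
  set U := Nat.sqrt (Nat.sqrt N) with hU
  obtain ⟨hU1, hU2, hU3⟩ := fourth N U hU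
  have hU10 : 9 ≤ U := by
    by_contra hc
    have : U + 1 ≤ 9 := by omega
    have h4 : (U + 1) ^ 4 ≤ 9 ^ 4 := Nat.pow_le_pow_left this 4
    omega
  have hNr : (10 ^ 4 : ℝ) ≤ N := by exact_mod_cast hN
  have hN0 : (0 : ℝ) < N := by linarith
  have hN1 : (1 : ℝ) ≤ N := by linarith
  have hlog4N : 0 ≤ Real.log (4 * (N : ℝ)) := Real.log_nonneg (by linarith)
  set Lg : ℝ := 1 + Real.log (4 * N) with hLg
  have hLg1 : 1 ≤ Lg := by linarith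
  set P : ℝ := (N : ℝ) ^ (-(η / 4)) with hP
  have hP0 : 0 < P := Real.rpow_pos_of_pos hN0 _
  have hUr : (9 : ℝ) ≤ U := by exact_mod_cast hU10
  -- N < (2X)^4 ⟹ X^{-η} ≤ 2 P
  have hsmall : ∀ X : ℝ, 1 ≤ X → (N : ℝ) ≤ (4 * X) ^ 4 → ∀ ρ : ℝ, η ≤ ρ → X ^ (-ρ) ≤ 4 * P := by
    intro X hX hNX ρ hρ
    have h1 : X ^ (-ρ) ≤ X ^ (-η) := Real.rpow_le_rpow_of_exponent_le hX (by linarith)
    refine h1.trans ?_
    have h2 : (N : ℝ) ^ ((1 : ℝ) / 4) ≤ 4 * X := by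
      have h3 : (N : ℝ) ^ ((1 : ℝ) / 4) ≤ ((4 * X) ^ 4) ^ ((1 : ℝ) / 4) := Real.rpow_le_rpow hN0.le hNX (by norm_num)
      refine h3.trans (le_of_eq ?_)
      rw [← Real.rpow_natCast, ← Real.rpow_mul (by positivity)]
      norm_num
    have h4 : (4 * X) ^ (-η) ≤ ((N : ℝ) ^ ((1 : ℝ) / 4)) ^ (-η) :=
      Real.rpow_le_rpow_of_nonpos (by positivity) h2 (by linarith)
    have h5 : ((N : ℝ) ^ ((1 : ℝ) / 4)) ^ (-η) = P := by
      rw [hP, ← Real.rpow_mul hN0.le]; congr 1; ring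
    rw [h5, Real.mul_rpow (by norm_num) (by linarith)] at h4
    have h6 : (1 : ℝ) / 4 ≤ (4 : ℝ) ^ (-η) := by
      calc (1 : ℝ) / 4 = (4 : ℝ) ^ (-1 : ℝ) := by rw [Real.rpow_neg_one]; norm_num
        _ ≤ _ := Real.rpow_le_rpow_of_exponent_le (by norm_num) (by linarith [hηa.trans hη₁1])
    have h7 : 0 < X ^ (-η) := Real.rpow_pos_of_pos (by linarith) _
    nlinarith
  set C : ℝ := 8 * C₁ + 80 * C₂ with hC
  set S : ℝ := C * ((N : ℝ) ^ 2 * P + (N : ℝ) ^ 3 * Lg / ξ) with hS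
  have hC1 : 1 ≤ C := by linarith
  have hS0 : 0 ≤ S := by positivity
  set Y : ℕ → ℝ := fun m => C * ((N : ℝ) ^ 2 / ξ + (N : ℝ) * P) * (1 / (m : ℝ)) with hY
  have hY0 : ∀ m, 0 ≤ Y m := fun m => by simp only [hY]; positivity
  have hUsq : U * U ≤ N := hU1.trans (Nat.sqrt_le_self N)
  have main := vaughan_gen (fun n => e (ξ / (n : ℝ))) N N' U (by omega) hNN' hN' (by omega) hUsq Y (Real.sqrt S)
    (Real.sqrt_nonneg _) hY0 ?_ ?_
  · refine main.trans ?_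
    apply add_le_add le_rfl
    apply mul_le_mul_of_nonneg_left _ (by positivity)
    simp only [hY]
    rw [← mul_sum]
    apply mul_le_mul_of_nonneg_left _ (by positivity)
    refine (harm (U * U)).trans ?_
    have : Real.log (((U * U : ℕ) : ℝ) + 1) ≤ Real.log (4 * N) := by
      apply Real.log_le_log (by positivity)
      have h1 : ((U * U : ℕ) : ℝ) ≤ N := by exact_mod_cast hUsq
      linarith
    linarith
  · -- type I
    intro m hm b hb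
    rw [mem_Icc] at hm
    have hm0 : 0 < m := by omega
    have hmr : (1 : ℝ) ≤ m := by exact_mod_cast hm.1
    have hmN : m ≤ N := hm.2.trans hUsq
    set a := N / m with ha
    have hb2 : b ≤ 2 * a + 1 := by
      have h1 : N' / m ≤ 2 * N / m := Nat.div_le_div_right hN'
      have h2 : 2 * N / m ≤ 2 * a + 1 := by
        have h3 : N < (a + 1) * m := by
          have := Nat.div_add_mod N m
          have := Nat.mod_lt N hm0
          nlinarith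
        have h4 : 2 * N / m < 2 * a + 2 := by
          rw [Nat.div_lt_iff_lt_mul hm0]; nlinarith
        omega
      omega
    have hE : ∑ l ∈ Ioc a b, e (ξ / ((m * l : ℕ) : ℝ)) = ∑ l ∈ Ioc a b, e (ξ / m / (l : ℝ)) := by
      refine sum_congr rfl fun l _ => ?_
      congr 1
      push_cast
      rw [div_div]
    have haN : Nat.sqrt N < a + 1 := by
      -- N / m ≥ N / (U*U) ≥ sqrt N
      have h3 : N < (a + 1) * m := by
        have := Nat.div_add_mod N m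
        have := Nat.mod_lt N hm0
        nlinarith
      by_contra hc
      rw [not_lt] at hc
      have h4 : (a + 1) * m ≤ Nat.sqrt N * Nat.sqrt N := Nat.mul_le_mul hc (hm.2.trans hU1)
      omega
    have haN2 : N ≤ (a + 1) * (a + 1) := by
      have h5 : N < (Nat.sqrt N + 1) * (Nat.sqrt N + 1) := Nat.lt_succ_sqrt _
      have : (Nat.sqrt N + 1) * (Nat.sqrt N + 1) ≤ (a + 1) * (a + 1) := Nat.mul_le_mul haN haN
      omega
    have ha1 : (1 : ℝ) ≤ ((a + 1 : ℕ) : ℝ) := by exact_mod_cast (by omega : 1 ≤ a + 1)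
    have hcond : ξ / m ≤ ((a + 1 : ℕ) : ℝ) ^ (8 * d + 1 + 1 : ℕ) := by
      have h1 : ξ / m ≤ ξ := div_le_self hξ0.le hmr
      have h2 : (N : ℝ) ≤ ((a + 1 : ℕ) : ℝ) ^ 2 := by
        have : (N : ℝ) ≤ (((a + 1) * (a + 1) : ℕ) : ℝ) := by exact_mod_cast haN2
        rw [sq]; push_cast at this ⊢; exact this
      calc ξ / m ≤ (N : ℝ) ^ d := h1.trans hξ
        _ ≤ (((a + 1 : ℕ) : ℝ) ^ 2) ^ d := by gcongr
        _ = ((a + 1 : ℕ) : ℝ) ^ (2 * d) := by rw [← pow_mul]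
        _ ≤ _ := pow_le_pow_right₀ ha1 (by omega)
    have h6 := hI a b (ξ / m) hb2 (by positivity) hcond
    rw [hE]
    refine h6.trans ?_
    simp only [hY]
    have ha2 : ((a + 1 : ℕ) : ℝ) ≤ 2 * (N / m) := by
      have h7 : ((a : ℕ) : ℝ) ≤ (N : ℝ) / m := Nat.cast_div_le
      have h8 : (1 : ℝ) ≤ (N : ℝ) / m := by
        rw [le_div_iff₀ (by linarith)]; rw [one_mul]; exact_mod_cast hmN
      push_cast; linarith
    have h9 : ((a + 1 : ℕ) : ℝ) ^ 2 / (ξ / m) ≤ 4 * ((N : ℝ) ^ 2 / ξ * (1 / m)) := by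
      calc ((a + 1 : ℕ) : ℝ) ^ 2 / (ξ / m) ≤ (2 * (N / m)) ^ 2 / (ξ / m) := by gcongr
        _ = 4 * ((N : ℝ) ^ 2 / ξ * (1 / m)) := by field_simp; ring
    have h10 : ((a + 1 : ℕ) : ℝ) ^ (1 - η₁) ≤ 8 * ((N : ℝ) * P * (1 / m)) := by
      have e1 : ((a + 1 : ℕ) : ℝ) ^ (1 - η₁) = ((a + 1 : ℕ) : ℝ) * ((a + 1 : ℕ) : ℝ) ^ (-η₁) := by
        rw [sub_eq_add_neg, Real.rpow_add (by linarith), Real.rpow_one]
      rw [e1]
      have h11 := hsmall ((a + 1 : ℕ) : ℝ) ha1 (by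
        have h12 : (N : ℝ) ≤ ((a + 1 : ℕ) : ℝ) ^ 2 := by
          have : (N : ℝ) ≤ (((a + 1) * (a + 1) : ℕ) : ℝ) := by exact_mod_cast haN2
          rw [sq]; push_cast at this ⊢; exact this
        calc (N : ℝ) ≤ ((a + 1 : ℕ) : ℝ) ^ 2 := h12
          _ ≤ (4 * ((a + 1 : ℕ) : ℝ)) ^ 2 := by gcongr; linarith
          _ ≤ (4 * ((a + 1 : ℕ) : ℝ)) ^ 4 := pow_le_pow_right₀ (by linarith) (by norm_num)) η₁ hηa
      calc ((a + 1 : ℕ) : ℝ) * ((a + 1 : ℕ) : ℝ) ^ (-η₁) ≤ (2 * (N / m)) * (4 * P) := by gcongr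
        _ = _ := by ring
    have hq1 : 0 ≤ (N : ℝ) ^ 2 / ξ * (1 / m) := by positivity
    have hq2 : 0 ≤ (N : ℝ) * P * (1 / m) := by positivity
    calc C₁ * (((a + 1 : ℕ) : ℝ) ^ 2 / (ξ / m) + ((a + 1 : ℕ) : ℝ) ^ (1 - η₁))
        ≤ C₁ * (4 * ((N : ℝ) ^ 2 / ξ * (1 / m)) + 8 * ((N : ℝ) * P * (1 / m))) := by gcongr
      _ ≤ C * ((N : ℝ) ^ 2 / ξ * (1 / m)) + C * ((N : ℝ) * P * (1 / m)) := by
          have hc4 : 4 * C₁ ≤ C := by linarith
          have hc8 : 8 * C₁ ≤ C := by linarith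
          have := mul_le_mul_of_nonneg_right hc4 hq1
          have := mul_le_mul_of_nonneg_right hc8 hq2
          linarith
      _ = _ := by ring
  · -- type II
    intro a b A₂ B₂ hA hB M L hM hL hUM hUL hML hsa hsb
    have hMr : (1 : ℝ) ≤ M := by exact_mod_cast hM
    have hLr : (1 : ℝ) ≤ L := by exact_mod_cast hL
    have hNM : N < (2 * M) ^ 4 := lt_of_lt_of_le hU3 (Nat.pow_le_pow_left (by omega) 4)
    have hNL : N < (2 * L) ^ 4 := lt_of_lt_of_le hU3 (Nat.pow_le_pow_left (by omega) 4)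
    have hNMr : (N : ℝ) ≤ (2 * M) ^ 4 := by exact_mod_cast hNM.le
    have hNLr : (N : ℝ) ≤ (2 * L) ^ 4 := by exact_mod_cast hNL.le
    have hM5 : (5 : ℝ) ≤ M := by exact_mod_cast (by omega : 5 ≤ M)
    have hcond : ξ ≤ (M : ℝ) ^ (8 * d + 1 + 1 : ℕ) := by
      have h1 : (N : ℝ) ≤ (M : ℝ) ^ 8 := by
        calc (N : ℝ) ≤ (2 * M) ^ 4 := hNMr
          _ = 16 * (M : ℝ) ^ 4 := by ring
          _ ≤ (M : ℝ) ^ 4 * (M : ℝ) ^ 4 := by
            apply mul_le_mul_of_nonneg_right _ (by positivity)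
            calc (16 : ℝ) ≤ 5 ^ 4 := by norm_num
              _ ≤ _ := by gcongr
          _ = _ := by ring
      calc ξ ≤ (N : ℝ) ^ d := hξ
        _ ≤ ((M : ℝ) ^ 8) ^ d := by gcongr
        _ = (M : ℝ) ^ (8 * d) := by rw [← pow_mul]
        _ ≤ _ := pow_le_pow_right₀ hMr (by omega)
    have h := typeII hC₂ hII ξ hξ0 N N' M L hM hL a b hcond
    refine h.trans ?_
    rw [Real.sq_sqrt hS0]
    have hMLr : (M : ℝ) * L ≤ 2 * N := by
      have : ((M * L : ℕ) : ℝ) ≤ ((2 * N : ℕ) : ℝ) := by exact_mod_cast hML.trans hN'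
      push_cast at this; exact this
    have hlogL : 1 + Real.log ((L : ℝ) + 1) ≤ Lg := by
      rw [hLg]
      apply add_le_add le_rfl
      apply Real.log_le_log (by positivity)
      have : (L : ℝ) ≤ M * L := le_mul_of_one_le_left (by positivity) hMr
      linarith
    have hlogL0 : 0 ≤ 1 + Real.log ((L : ℝ) + 1) := by
      have := Real.log_nonneg (show (1 : ℝ) ≤ (L : ℝ) + 1 by linarith)
      linarith
    have hML2 : ((M : ℝ) * L) ^ 2 ≤ 4 * (N : ℝ) ^ 2 := by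
      calc ((M : ℝ) * L) ^ 2 ≤ (2 * N) ^ 2 := by gcongr
        _ = _ := by ring
    have hLP : (L : ℝ) ^ (-1 : ℝ) ≤ 4 * P := hsmall L hLr (hNLr.trans (by gcongr; norm_num)) 1 (hηa.trans hη₁1)
    have hMP : (M : ℝ) ^ (-η₂) ≤ 4 * P := hsmall M hMr (hNMr.trans (by gcongr; norm_num)) η₂ hηb
    have t1 : (M : ℝ) * L * M ≤ 16 * ((N : ℝ) ^ 2 * P) := by
      have e1 : (M : ℝ) * L * M = ((M : ℝ) * L) ^ 2 * (L : ℝ) ^ (-1 : ℝ) := by
        rw [Real.rpow_neg_one]; field_simp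
      rw [e1]
      calc ((M : ℝ) * L) ^ 2 * (L : ℝ) ^ (-1 : ℝ) ≤ (4 * (N : ℝ) ^ 2) * (4 * P) := by gcongr
        _ = _ := by ring
    have t2 : (M : ℝ) * L * (8 * ((M : ℝ) * L) ^ 2 / ξ * (1 + Real.log (L + 1))) ≤ 64 * ((N : ℝ) ^ 3 * Lg / ξ) := by
      calc (M : ℝ) * L * (8 * ((M : ℝ) * L) ^ 2 / ξ * (1 + Real.log (L + 1)))
          ≤ (2 * N) * (8 * (4 * (N : ℝ) ^ 2) / ξ * Lg) := by gcongr
        _ = _ := by ring
    have t3 : (M : ℝ) * L * (L * (M : ℝ) ^ (1 - η₂)) ≤ 16 * ((N : ℝ) ^ 2 * P) := by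
      have e1 : (M : ℝ) ^ (1 - η₂) = M * (M : ℝ) ^ (-η₂) := by
        rw [sub_eq_add_neg, Real.rpow_add (by linarith), Real.rpow_one]
      rw [e1]
      calc (M : ℝ) * L * (L * (M * (M : ℝ) ^ (-η₂))) = ((M : ℝ) * L) ^ 2 * (M : ℝ) ^ (-η₂) := by ring
        _ ≤ (4 * (N : ℝ) ^ 2) * (4 * P) := by gcongr
        _ = _ := by ring
    have hq1 : 0 ≤ (N : ℝ) ^ 2 * P := by positivity
    have hq2 : 0 ≤ (N : ℝ) ^ 3 * Lg / ξ := by positivity
    set T : ℝ := M + C₂ * (8 * ((M : ℝ) * L) ^ 2 / ξ * (1 + Real.log (L + 1)) + L * (M : ℝ) ^ (1 - η₂)) with hT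
    have hT0 : 0 ≤ T := by positivity
    have hMLT : (M : ℝ) * L * T ≤ S := by
      have e1 : (M : ℝ) * L * T = (M : ℝ) * L * M +
          (C₂ * ((M : ℝ) * L * (8 * ((M : ℝ) * L) ^ 2 / ξ * (1 + Real.log (L + 1)))) +
          C₂ * ((M : ℝ) * L * (L * (M : ℝ) ^ (1 - η₂)))) := by rw [hT]; ring
      rw [e1, hS]
      have t2' := mul_le_mul_of_nonneg_left t2 (show 0 ≤ C₂ by linarith)
      have t3' := mul_le_mul_of_nonneg_left t3 (show 0 ≤ C₂ by linarith)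
      have hc1 : 16 + 16 * C₂ ≤ C := by linarith
      have hc2 : 64 * C₂ ≤ C := by linarith
      have u1 := mul_le_mul_of_nonneg_right hc1 hq1
      have u2 := mul_le_mul_of_nonneg_right hc2 hq2
      linarith
    calc (∑ m ∈ Ioc M (2 * M), ‖a m‖ ^ 2) * ((∑ l ∈ Ioc L (2 * L), ‖b l‖ ^ 2) * T)
        ≤ (A₂ * M) * ((B₂ * L) * T) := by
          apply mul_le_mul hsa _ _ (by positivity)
          · exact mul_le_mul_of_nonneg_right hsb hT0
          · exact mul_nonneg (sum_nonneg fun _ _ => by positivity) hT0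
      _ = A₂ * B₂ * ((M : ℝ) * L * T) := by ring
      _ ≤ A₂ * B₂ * S := mul_le_mul_of_nonneg_left hMLT (by positivity)

end Pool.Agent.H895R3.NK
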