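import Pool.Agent.H895R3.NK.E3

set_option autoImplicit false
set_option maxHeartbeats 4000000

/-! Sums over primes with the phase `ξ/n`: asymptotic form. -/

namespace Pool.Agent.H895R3.NK
open Finset
open Pool.Agent.H469R2.NK (e norm_e e_add conj_e norm_sum_neg e_zero)

lemma ev_log' (δ : ℝ) (hδ : 0 < δ) (j : ℕ) (B : ℝ) : ∃ N₀ : ℕ, ∀ N : ℕ, N₀ ≤ N → 12 ≤ N ∧ B ≤ Real.log N ∧
    1 ≤ Real.log N ∧ 1 + Real.log (4 * N) ≤ 3 * Real.log N ∧ (Real.log N) ^ j ≤ (N : ℝ) ^ δ := by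
  have h1 : (fun x : ℝ => (Real.log x) ^ (j : ℝ)) =o[Filter.atTop] (fun x : ℝ => x ^ δ) :=
    isLittleO_log_rpow_rpow_atTop (j : ℝ) (by positivity)
  have hl : Filter.Tendsto (fun N : ℕ => (N : ℝ)) Filter.atTop Filter.atTop := tendsto_natCast_atTop_atTop
  have h2 := (h1.bound (show (0 : ℝ) < 1 by norm_num))
  have h3 := hl.eventually h2
  have h5 := (Real.tendsto_log_atTop.comp hl).eventually_ge_atTop B
  obtain ⟨N₀, hN₀⟩ := Filter.eventually_atTop.1 (h3.and h5)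
  refine ⟨N₀ + 12, fun N hN => ?_⟩
  obtain ⟨h6, h7⟩ := hN₀ N (by omega)
  have hN1 : (12 : ℝ) ≤ N := by exact_mod_cast (by omega : 12 ≤ N)
  have hN0 : (0 : ℝ) < N := by linarith
  have hlogN : 1 ≤ Real.log N := by
    rw [Real.le_log_iff_exp_le hN0]
    have := Real.exp_one_lt_d9
    linarith
  rw [Real.norm_of_nonneg (by positivity), Real.norm_of_nonneg (by positivity), one_mul, Real.rpow_natCast] at h6
  have h8 : 1 + Real.log (4 * N) ≤ 3 * Real.log N := by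
    rw [Real.log_mul (by norm_num) hN0.ne']
    have h9 : Real.log 4 ≤ Real.log N - 1 := by
      have h10 : Real.log (4 * Real.exp 1) ≤ Real.log N := by
        apply Real.log_le_log (by positivity)
        have := Real.exp_one_lt_d9
        linarith
      rw [Real.log_mul (by norm_num) (Real.exp_pos 1).ne', Real.log_exp] at h10
      linarith
    linarith
  exact ⟨by omega, h7, hlogN, h8, h6⟩

theorem prime_exp_small (d : ℕ) (ε : ℝ) (hε : 0 < ε) : ∃ N₀ : ℕ, ∀ N : ℕ, N₀ ≤ N → ∀ N' : ℕ, N ≤ N' →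
    N' ≤ 2 * N → ∀ ξ : ℝ, (N : ℝ) * (Real.log N) ^ 14 ≤ ξ → ξ ≤ (N : ℝ) ^ d →
    ‖∑ n ∈ Ioc N N', ((ArithmeticFunction.vonMangoldt n : ℝ) : ℂ) * e (ξ / (n : ℝ))‖ ≤ ε * N := by
  obtain ⟨η, hη0, hη1, C, hC, h⟩ := prime_exp_bound d
  obtain ⟨N₁, hN₁⟩ := ev_log' (η / 4) (by positivity) 13 ((3888 * Real.sqrt C + 54 * C) / ε)
  refine ⟨N₁ + 10 ^ 4, fun N hN N' hNN' hN' ξ hξ1 hξ2 => ?_⟩
  obtain ⟨h12, hB, hl1, hLg, hpow⟩ := hN₁ N (by omega)
  have hNr : (12 : ℝ) ≤ N := by exact_mod_cast h12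
  have hN0 : (0 : ℝ) < N := by linarith
  set l := Real.log N with hl
  have hl0 : 0 < l := by linarith
  have hξ0 : 0 < ξ := lt_of_lt_of_le (by positivity) hξ1
  refine (h N N' (by omega) hNN' hN' ξ hξ0 hξ2).trans ?_
  set Lg : ℝ := 1 + Real.log (4 * N) with hLgd
  have hLg1 : 1 ≤ Lg := by
    have := Real.log_nonneg (show (1 : ℝ) ≤ 4 * N by linarith)
    linarith
  set P : ℝ := (N : ℝ) ^ (-(η / 4)) with hP
  have hP0 : 0 < P := Real.rpow_pos_of_pos hN0 _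
  have hPl : P ≤ 1 / l ^ 13 := by
    rw [hP, Real.rpow_neg hN0.le, ← one_div]
    exact one_div_le_one_div_of_le (by positivity) hpow
  have hC0 : 0 < C := by linarith
  have e1 : (N : ℝ) ^ 3 * Lg / ξ ≤ 3 * (N : ℝ) ^ 2 / l ^ 13 := by
    calc (N : ℝ) ^ 3 * Lg / ξ ≤ (N : ℝ) ^ 3 * (3 * l) / ((N : ℝ) * l ^ 14) := by gcongr
      _ = 3 * (N : ℝ) ^ 2 / l ^ 13 := by field_simp
  have e2 : (N : ℝ) ^ 2 / ξ ≤ N / l ^ 13 := by
    calc (N : ℝ) ^ 2 / ξ ≤ (N : ℝ) ^ 2 / ((N : ℝ) * l ^ 14) := by gcongr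
      _ = N / l ^ 14 := by field_simp
      _ ≤ N / l ^ 13 := by
        apply div_le_div_of_nonneg_left hN0.le (by positivity)
        exact pow_le_pow_right₀ hl1 (by norm_num)
  have e3 : (N : ℝ) ^ 2 * P ≤ (N : ℝ) ^ 2 / l ^ 13 := by
    calc (N : ℝ) ^ 2 * P ≤ (N : ℝ) ^ 2 * (1 / l ^ 13) := by gcongr
      _ = _ := by ring
  have e4 : (N : ℝ) * P ≤ N / l ^ 13 := by
    calc (N : ℝ) * P ≤ (N : ℝ) * (1 / l ^ 13) := by gcongr
      _ = _ := by ring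
  have hsq : Real.sqrt (C * ((N : ℝ) ^ 2 * P + (N : ℝ) ^ 3 * Lg / ξ)) ≤ 2 * Real.sqrt C * N / l ^ 6 := by
    rw [Real.sqrt_le_left (by positivity)]
    have h13 : (1 : ℝ) / l ^ 13 ≤ 1 / l ^ 12 :=
      one_div_le_one_div_of_le (by positivity) (pow_le_pow_right₀ hl1 (by norm_num))
    calc C * ((N : ℝ) ^ 2 * P + (N : ℝ) ^ 3 * Lg / ξ) ≤ C * ((N : ℝ) ^ 2 / l ^ 13 + 3 * (N : ℝ) ^ 2 / l ^ 13) := by gcongr
      _ = 4 * C * (N : ℝ) ^ 2 * (1 / l ^ 13) := by ring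
      _ ≤ 4 * C * (N : ℝ) ^ 2 * (1 / l ^ 12) := by gcongr
      _ = (2 * Real.sqrt C * N / l ^ 6) ^ 2 := by
        rw [div_pow, mul_pow, mul_pow, Real.sq_sqrt hC0.le]; ring
  have hfin : (3888 * Real.sqrt C + 54 * C) ≤ ε * l := by
    rw [div_le_iff₀ hε] at hB
    linarith
  have t1 : 8 * Lg ^ 5 * Real.sqrt (C * ((N : ℝ) ^ 2 * P + (N : ℝ) ^ 3 * Lg / ξ)) ≤ 3888 * Real.sqrt C * (N / l) := by
    calc _ ≤ 8 * (3 * l) ^ 5 * (2 * Real.sqrt C * N / l ^ 6) := by gcongr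
      _ = _ := by field_simp; ring
  have t2 : 3 * Lg * (C * ((N : ℝ) ^ 2 / ξ + (N : ℝ) * P) * Lg) ≤ 54 * C * (N / l) := by
    calc _ ≤ 3 * (3 * l) * (C * (N / l ^ 13 + N / l ^ 13) * (3 * l)) := by gcongr
      _ = 54 * C * (N / l ^ 11) := by field_simp; ring
      _ ≤ _ := by
        apply mul_le_mul_of_nonneg_left _ (by positivity)
        apply div_le_div_of_nonneg_left hN0.le hl0
        calc l = l ^ 1 := (pow_one l).symm
          _ ≤ l ^ 11 := pow_le_pow_right₀ hl1 (by norm_num)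
  calc _ ≤ 3888 * Real.sqrt C * (N / l) + 54 * C * (N / l) := add_le_add t1 t2
    _ = (3888 * Real.sqrt C + 54 * C) * (N / l) := by ring
    _ ≤ (ε * l) * (N / l) := by gcongr
    _ = ε * N := by field_simp

end Pool.Agent.H895R3.NK
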