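import Pool.Agent.H895R3.NK.E4
import Pool.Agent.H442R2.EHI.PntErr

set_option autoImplicit false
set_option maxHeartbeats 4000000

/-! Primes in `(k, 2k)` dividing a product of `k` consecutive integers. -/

namespace Pool.Agent.H895R3.NK
open Finset
open Pool.Agent.H469R2.NK (e norm_e e_add conj_e norm_sum_neg e_zero)

/-- `n ≥ 2k` and no prime in `(k, 2k)` divides `(n-1)(n-2)⋯(n-k)` -/
def Good (k n : ℕ) : Prop :=
  2 * k ≤ n ∧ ∀ p : ℕ, p.Prime → k < p → p < 2 * k → ¬ p ∣ ∏ i ∈ Finset.Icc 1 k, (n - i)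

lemma good_mod {k n : ℕ} (h : Good k n) {p : ℕ} (hp : p.Prime) (h1 : k < p) (h2 : p < 2 * k) :
    n % p = 0 ∨ k < n % p := by
  by_contra hc
  rw [not_or, not_lt] at hc
  apply h.2 p hp h1 h2
  have hle : n % p ≤ n := Nat.mod_le n p
  have : p ∣ n - n % p := Nat.dvd_sub_mod n
  exact this.trans (Finset.dvd_prod_of_mem (fun i => n - i) (by rw [mem_Icc]; omega))

lemma good_mult {k n : ℕ} (h : Good k n) {p t : ℕ} (hp : p.Prime) (h1 : k < p) (h2 : p < 2 * k)
    (h3 : n ≤ p * t + k) (h4 : p * t < n) : False := by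
  apply h.2 p hp h1 h2
  have : p ∣ n - (n - p * t) := by
    rw [Nat.sub_sub_self h4.le]; exact dvd_mul_right p t
  exact this.trans (Finset.dvd_prod_of_mem (fun i => n - i) (by rw [mem_Icc]; omega))

lemma e_re (x : ℝ) : (e x).re = Real.cos (2 * Real.pi * x) := by
  unfold e
  rw [Complex.exp_ofReal_mul_I_re]

lemma e_im (x : ℝ) : (e x).im = Real.sin (2 * Real.pi * x) := by
  unfold e
  rw [Complex.exp_ofReal_mul_I_im]

/-- the trigonometric polynomial -/
lemma trig_lower {k n p : ℕ} (hp : 0 < p) (h2 : p < 2 * k) (hm : n % p = 0 ∨ k < n % p) :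
    1 ≤ -2 * (e ((n : ℝ) / p)).im + (e (2 * (n : ℝ) / p)).re := by
  have hpr : (0 : ℝ) < p := by exact_mod_cast hp
  rw [e_re, e_im]
  have e1 : (n : ℝ) / p = ((n / p : ℕ) : ℝ) + ((n % p : ℕ) : ℝ) / p := by
    rw [eq_comm, ← sub_eq_zero]
    field_simp
    have := Nat.div_add_mod n p
    have h3 : ((p * (n / p) + n % p : ℕ) : ℝ) = n := by exact_mod_cast this
    push_cast at h3
    linarith
  set y : ℝ := ((n % p : ℕ) : ℝ) / p with hy
  have e2 : 2 * Real.pi * ((n : ℝ) / p) = 2 * Real.pi * y + ((n / p : ℕ) : ℝ) * (2 * Real.pi) := by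
    rw [e1]; ring
  have e3 : 2 * Real.pi * (2 * (n : ℝ) / p) = 2 * (2 * Real.pi * ((n : ℝ) / p)) := by ring
  rw [e3, Real.cos_two_mul, e2, Real.cos_add_nat_mul_two_pi, Real.sin_add_nat_mul_two_pi]
  have hs : Real.sin (2 * Real.pi * y) ≤ 0 := by
    rcases hm with h | h
    · rw [hy, h]; simp
    · have h3 : (1 : ℝ) / 2 ≤ y := by
        rw [hy, div_le_div_iff₀ (by norm_num) hpr]
        have : p ≤ 2 * (n % p) := by omega
        have h5 : (p : ℝ) ≤ 2 * ((n % p : ℕ) : ℝ) := by exact_mod_cast this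
        linarith
      have h4 : y ≤ 1 := by
        rw [hy, div_le_one hpr]
        exact_mod_cast (Nat.mod_lt n hp).le
      have h5 : Real.sin (2 * Real.pi * y) = - Real.sin (2 * Real.pi * y - Real.pi) := by
        rw [Real.sin_sub_pi]; ring
      rw [h5, neg_nonpos]
      apply Real.sin_nonneg_of_nonneg_of_le_pi
      · nlinarith [Real.pi_pos]
      · nlinarith [Real.pi_pos]
  have hs2 := Real.neg_one_le_sin (2 * Real.pi * y)
  have hsc := Real.sin_sq_add_cos_sq (2 * Real.pi * y)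
  nlinarith

lemma trig_ge (n m : ℕ) : -3 ≤ -2 * (e ((n : ℝ) / m)).im + (e (2 * (n : ℝ) / m)).re := by
  rw [e_re, e_im]
  have h1 := Real.sin_le_one (2 * Real.pi * ((n : ℝ) / m))
  have h2 := Real.neg_one_le_cos (2 * Real.pi * (2 * (n : ℝ) / m))
  linarith

lemma theta_sub (a b : ℕ) (hab : a ≤ b) :
    Chebyshev.theta (b : ℝ) - Chebyshev.theta (a : ℝ) = ∑ p ∈ (Ioc a b).filter Nat.Prime, Real.log p := by
  unfold Chebyshev.theta
  rw [Nat.floor_natCast, Nat.floor_natCast]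
  have h : (Ioc 0 b).filter Nat.Prime = (Ioc 0 a).filter Nat.Prime ∪ (Ioc a b).filter Nat.Prime := by
    rw [← filter_union, Ioc_union_Ioc_eq_Ioc (Nat.zero_le _) hab]
  rw [h, sum_union]
  · ring
  · apply disjoint_filter_filter
    rw [disjoint_left]
    intro x hx hx'
    rw [mem_Ioc] at hx hx'
    omega

lemma psi_sub (a b : ℕ) (hab : a ≤ b) :
    Chebyshev.psi (b : ℝ) - Chebyshev.psi (a : ℝ) = ∑ m ∈ Ioc a b, ArithmeticFunction.vonMangoldt m := by
  unfold Chebyshev.psi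
  rw [Nat.floor_natCast, Nat.floor_natCast, ← Ioc_union_Ioc_eq_Ioc (Nat.zero_le a) hab, sum_union]
  · ring
  · rw [disjoint_left]
    intro x hx hx'
    rw [mem_Ioc] at hx hx'
    omega

end Pool.Agent.H895R3.NK
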