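import Pool.Agent.H895R3.NK.E5

set_option autoImplicit false
set_option maxHeartbeats 4000000

/-! The two ranges. -/

namespace Pool.Agent.H895R3.NK
open Finset
open Pool.Agent.H469R2.NK (e norm_e e_add conj_e norm_sum_neg e_zero)

/-- the range `k (log k)^14 ≤ n ≤ k^d` is impossible -/
theorem large_range (d : ℕ) : ∃ k₀ : ℕ, ∀ k : ℕ, k₀ ≤ k → ∀ n : ℕ, Good k n → (n : ℝ) ≤ (k : ℝ) ^ d →
    (n : ℝ) < (k : ℝ) * (Real.log k) ^ 14 := by
  obtain ⟨N₁, hN₁⟩ := prime_exp_small (d + 1) (1 / 24) (by norm_num)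
  obtain ⟨C, hC, hth⟩ := Pool.Agent.H442R2.EHI.PntErrAux.thetaU 1
  obtain ⟨C₂, hC₂⟩ := Chebyshev.psi_sub_theta_le_mul_sqrt
  obtain ⟨N₂, hN₂⟩ := ev_log' 1 one_pos 1 (16 * C)
  -- sqrt condition
  obtain ⟨N₃, hN₃⟩ : ∃ N₃ : ℕ, ∀ k : ℕ, N₃ ≤ k → 16 * |C₂| ≤ Real.sqrt k := by
    refine ⟨⌈(16 * |C₂|) ^ 2⌉₊, fun k hk => ?_⟩
    apply Real.le_sqrt_of_sq_le
    exact (Nat.ceil_le.1 hk)
  refine ⟨N₁ + N₂ + N₃ + 2, fun k hk n hg hn => ?_⟩
  by_contra hc
  rw [not_lt] at hc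
  have hk2 : 2 ≤ k := by omega
  have hkr : (2 : ℝ) ≤ k := by exact_mod_cast hk2
  have hk0 : (0 : ℝ) < k := by linarith
  obtain ⟨-, hB, hl1, -, -⟩ := hN₂ k (by omega)
  have hsq := hN₃ k (by omega)
  have hn0 : (0 : ℝ) < n := lt_of_lt_of_le (by positivity) hc
  have hS1 := hN₁ k (by omega) (2 * k) (by omega) le_rfl (n : ℝ) hc (by
    calc (n : ℝ) ≤ (k : ℝ) ^ d := hn
      _ ≤ (k : ℝ) ^ (d + 1) := pow_le_pow_right₀ (by linarith) (by omega))
  have hS2 := hN₁ k (by omega) (2 * k) (by omega) le_rfl (2 * (n : ℝ)) (by linarith) (by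
    calc 2 * (n : ℝ) ≤ (k : ℝ) * (k : ℝ) ^ d := by gcongr
      _ = (k : ℝ) ^ (d + 1) := by rw [pow_succ']) 
  set S1 := ∑ m ∈ Ioc k (2 * k), ((ArithmeticFunction.vonMangoldt m : ℝ) : ℂ) * e ((n : ℝ) / (m : ℝ)) with hS1d
  set S2 := ∑ m ∈ Ioc k (2 * k), ((ArithmeticFunction.vonMangoldt m : ℝ) : ℂ) * e (2 * (n : ℝ) / (m : ℝ)) with hS2d
  -- the combined sum
  have hcomb : -2 * S1.im + S2.re = ∑ m ∈ Ioc k (2 * k), ArithmeticFunction.vonMangoldt m *
      (-2 * (e ((n : ℝ) / m)).im + (e (2 * (n : ℝ) / m)).re) := by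
    rw [hS1d, hS2d, Complex.im_sum, Complex.re_sum, mul_sum, ← sum_add_distrib]
    refine sum_congr rfl fun m _ => ?_
    rw [Complex.im_ofReal_mul, Complex.re_ofReal_mul]
    ring
  have hupper : -2 * S1.im + S2.re ≤ k / 8 := by
    have h1 := Complex.abs_im_le_norm S1
    have h2 := Complex.abs_re_le_norm S2
    have h3 := neg_abs_le S1.im
    have h4 := le_abs_self S2.re
    linarith
  have hlower : 4 * (Chebyshev.theta ((2 * k : ℕ) : ℝ) - Chebyshev.theta (k : ℝ)) -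
      3 * (Chebyshev.psi ((2 * k : ℕ) : ℝ) - Chebyshev.psi (k : ℝ)) ≤ -2 * S1.im + S2.re := by
    rw [hcomb, theta_sub k (2 * k) (by omega), psi_sub k (2 * k) (by omega), sum_filter, mul_sum, mul_sum,
      ← sum_sub_distrib]
    apply sum_le_sum
    intro m hm
    rw [mem_Ioc] at hm
    have hL := ArithmeticFunction.vonMangoldt_nonneg (n := m)
    split_ifs with hp
    · have hm2 : m < 2 * k := by
        rcases Nat.lt_or_ge m (2 * k) with h | h
        · exact h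
        · exfalso
          have : m = 2 * k := by omega
          rw [this] at hp
          exact Nat.not_prime_mul (by norm_num) (by omega) hp
      have h1 := trig_lower (k := k) (n := n) (p := m) hp.pos hm2 (good_mod hg hp hm.1 hm2)
      rw [ArithmeticFunction.vonMangoldt_apply_prime hp]
      have h3 : 0 ≤ Real.log (m : ℝ) := Real.log_nonneg (by exact_mod_cast hp.one_lt.le)
      nlinarith
    · have h1 := trig_ge n m
      nlinarith
  have hth1 := hth (2 * k) (by omega)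
  have hth2 := hth k hk2
  have hpt := hC₂ ((2 * k : ℕ) : ℝ)
  have hpt2 := Chebyshev.theta_le_psi (k : ℝ)
  have hlog2k : Real.log k ≤ Real.log ((2 * k : ℕ) : ℝ) := Real.log_le_log hk0 (by push_cast; linarith)
  have e1 : C * (((2 * k : ℕ) : ℝ) / Real.log ((2 * k : ℕ) : ℝ) ^ 1) ≤ k / 8 := by
    rw [pow_one]
    calc C * (((2 * k : ℕ) : ℝ) / Real.log ((2 * k : ℕ) : ℝ)) ≤ C * (((2 * k : ℕ) : ℝ) / Real.log k) := by
          gcongr
      _ = (C * 16 / Real.log k) * (k / 8) := by push_cast; ring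
      _ ≤ 1 * (k / 8) := by
          apply mul_le_mul_of_nonneg_right _ (by positivity)
          rw [div_le_one (by linarith)]; linarith
      _ = _ := one_mul _
  have e2 : C * ((k : ℝ) / Real.log (k : ℝ) ^ 1) ≤ k / 16 := by
    rw [pow_one]
    calc C * ((k : ℝ) / Real.log k) = (C * 16 / Real.log k) * (k / 16) := by ring
      _ ≤ 1 * (k / 16) := by
          apply mul_le_mul_of_nonneg_right _ (by positivity)
          rw [div_le_one (by linarith)]; linarith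
      _ = _ := one_mul _
  have e3 : C₂ * Real.sqrt ((2 * k : ℕ) : ℝ) ≤ k / 8 := by
    have h1 : Real.sqrt ((2 * k : ℕ) : ℝ) ≤ 2 * Real.sqrt k := by
      rw [Real.sqrt_le_left (by positivity), mul_pow, Real.sq_sqrt hk0.le]
      push_cast; linarith
    calc C₂ * Real.sqrt ((2 * k : ℕ) : ℝ) ≤ |C₂| * Real.sqrt ((2 * k : ℕ) : ℝ) := by
          gcongr; exact le_abs_self _
      _ ≤ |C₂| * (2 * Real.sqrt k) := by gcongr
      _ = (16 * |C₂|) * Real.sqrt k / 8 := by ring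
      _ ≤ Real.sqrt k * Real.sqrt k / 8 := by gcongr
      _ = k / 8 := by rw [Real.mul_self_sqrt hk0.le]
  have a1 := (abs_le.1 hth1).1
  have a2 := (abs_le.1 hth2).2
  push_cast at a1 hpt e1 e3 hlower hth1
  linarith

/-- primes in short intervals inside `(k, 2k]` -/
theorem short_prime : ∃ k₀ : ℕ, ∀ k : ℕ, k₀ ≤ k → ∀ A B : ℕ, k ≤ A → B ≤ 2 * k → A ≤ B →
    (k : ℝ) / (16 * (Real.log k) ^ 14) ≤ (B : ℝ) - A → ∃ p : ℕ, p.Prime ∧ A < p ∧ p ≤ B := by
  obtain ⟨C, hC, hth⟩ := Pool.Agent.H442R2.EHI.PntErrAux.thetaU 16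
  obtain ⟨N₂, hN₂⟩ := ev_log' 1 one_pos 1 (64 * C + 1)
  refine ⟨N₂ + 2, fun k hk A B hA hB hAB h => ?_⟩
  have hk2 : 2 ≤ k := by omega
  have hkr : (2 : ℝ) ≤ k := by exact_mod_cast hk2
  have hk0 : (0 : ℝ) < k := by linarith
  obtain ⟨-, hBl, hl1, -, -⟩ := hN₂ k (by omega)
  set l := Real.log k with hl
  have hl0 : 0 < l := by linarith
  have herr : ∀ X : ℕ, k ≤ X → X ≤ 2 * k → C * ((X : ℝ) / Real.log X ^ 16) ≤ (k : ℝ) / (32 * l ^ 14) * (1 / l) := by
    intro X hX1 hX2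
    have h1 : l ≤ Real.log X := Real.log_le_log hk0 (by exact_mod_cast hX1)
    have h2 : (X : ℝ) ≤ 2 * k := by exact_mod_cast hX2
    calc C * ((X : ℝ) / Real.log X ^ 16) ≤ C * ((2 * k) / l ^ 16) := by gcongr
      _ = (64 * C / l) * ((k : ℝ) / (32 * l ^ 14) * (1 / l)) := by field_simp; ring
      _ ≤ 1 * ((k : ℝ) / (32 * l ^ 14) * (1 / l)) := by
        apply mul_le_mul_of_nonneg_right _ (by positivity)
        rw [div_le_one hl0]; linarith
      _ = _ := one_mul _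
  have hl2 : (k : ℝ) / (32 * l ^ 14) * (1 / l) < (k : ℝ) / (32 * l ^ 14) := by
    have h3 : 1 / l < 1 := by rw [div_lt_one hl0]; linarith
    have h4 : 0 < (k : ℝ) / (32 * l ^ 14) := by positivity
    nlinarith
  have hA2 := hth A (by omega)
  have hB2 := hth B (by omega)
  have hA3 := herr A hA (by omega)
  have hB3 := herr B (by omega) hB
  have a1 := (abs_le.1 hB2).1
  have a2 := (abs_le.1 hA2).2
  have hdiff : 0 < Chebyshev.theta (B : ℝ) - Chebyshev.theta (A : ℝ) := by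
    have e1 : (k : ℝ) / (16 * l ^ 14) = 2 * ((k : ℝ) / (32 * l ^ 14)) := by field_simp; norm_num
    rw [e1] at h
    linarith
  rw [theta_sub A B hAB] at hdiff
  obtain ⟨p, hp, -⟩ := exists_ne_zero_of_sum_ne_zero hdiff.ne'
  rw [mem_filter, mem_Ioc] at hp
  exact ⟨p, hp.2, hp.1.1, hp.1.2⟩

end Pool.Agent.H895R3.NK
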