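import Pool.Agent.H895R3.NK.E6

set_option autoImplicit false
set_option maxHeartbeats 4000000

/-! The main lower bound. -/

namespace Pool.Agent.H895R3.NK
open Finset

theorem small_range : ∃ k₀ : ℕ, ∀ k : ℕ, k₀ ≤ k → ∀ n : ℕ, Good k n →
    (k : ℝ) * (Real.log k) ^ 14 ≤ n := by
  obtain ⟨N₁, hN₁⟩ := short_prime
  obtain ⟨N₂, hN₂⟩ := ev_log' 1 one_pos 15 10
  refine ⟨N₁ + N₂ + 6, fun k hk n hg => ?_⟩
  by_contra hc
  rw [not_le] at hc
  obtain ⟨-, hB10, hl1, -, hpow⟩ := hN₂ k (by omega)
  have hkr : (6 : ℝ) ≤ k := by exact_mod_cast (by omega : 6 ≤ k)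
  have hk0 : (0 : ℝ) < k := by linarith
  set l := Real.log k with hl
  have hl0 : 0 < l := by linarith
  rw [Real.rpow_one] at hpow
  have hl14 : 10 * l ^ 14 ≤ k := by
    calc 10 * l ^ 14 ≤ l * l ^ 14 := by gcongr
      _ = l ^ 15 := by ring
      _ ≤ k := hpow
  have hl4 : (4 : ℝ) ≤ l ^ 14 := by
    calc (4 : ℝ) ≤ 10 ^ 14 := by norm_num
      _ ≤ l ^ 14 := by gcongr
  have hn2 := hg.1
  rcases Nat.lt_or_ge (2 * n) (5 * k) with hcase | hcase
  · obtain ⟨p, hp, hp1, hp2⟩ := hN₁ k (by omega) (3 * k / 2) (2 * k - 1) (by omega) (by omega) (by omega) (by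
      have h1 : ((3 * k / 2 : ℕ) : ℝ) ≤ ((3 * k : ℕ) : ℝ) / 2 := Nat.cast_div_le
      have h2 : ((2 * k - 1 : ℕ) : ℝ) = 2 * k - 1 := by
        rw [Nat.cast_sub (by omega)]; push_cast; ring
      rw [h2]
      push_cast at h1
      have h3 : (k : ℝ) / (16 * l ^ 14) ≤ k / 64 := by
        apply div_le_div_of_nonneg_left hk0.le (by norm_num)
        linarith
      linarith)
    exact good_mult hg (p := p) (t := 1) hp (by omega) (by omega) (by omega) (by omega)
  · set t := (n + 2 * k - 1) / (2 * k) with ht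
    have ht1 : n ≤ 2 * k * t := by
      have h1 := Nat.div_add_mod (n + 2 * k - 1) (2 * k)
      have h2 := Nat.mod_lt (n + 2 * k - 1) (show 0 < 2 * k by omega)
      rw [← ht] at h1
      omega
    have ht2 : 2 * k * t ≤ n + 2 * k - 1 := by
      rw [ht]; exact Nat.mul_div_le _ _
    have ht3 : 2 ≤ t := by
      by_contra h
      have h1 : t ≤ 1 := by omega
      have : 2 * k * t ≤ 2 * k * 1 := Nat.mul_le_mul_left _ h1
      omega
    have ht0 : 0 < t := by omega
    have h54 : 5 * (k * t) ≤ 4 * n := by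
      rcases Nat.lt_or_ge t 3 with h | h
      · have : t = 2 := by omega
        rw [this]; omega
      · -- 2 k t ≤ n + 2k - 1 and t ≥ 3
        have h3 : k * 3 ≤ k * t := Nat.mul_le_mul_left _ h
        have h4 : 2 * k * t = 2 * (k * t) := by ring
        omega
    set B := (n - 1) / t with hB
    set w := k / (8 * t) with hw
    have hBt : B * t ≤ n - 1 := Nat.div_mul_le_self _ _
    have hBt2 : n ≤ (B + 1) * t := by
      have h1 := Nat.div_add_mod (n - 1) t
      have h2 := Nat.mod_lt (n - 1) ht0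
      rw [← hB] at h1
      have h3 : (B + 1) * t = t * B + t := by ring
      omega
    have hB2k : B < 2 * k := by
      by_contra h
      have h1 : 2 * k ≤ B := by omega
      have h2 : 2 * k * t ≤ B * t := Nat.mul_le_mul_right _ h1
      omega
    have hwt : 8 * (w * t) ≤ k := by
      have h1 : k / (8 * t) * (8 * t) ≤ k := Nat.div_mul_le_self _ _
      rw [← hw] at h1
      have h2 : w * (8 * t) = 8 * (w * t) := by ring
      omega
    have hw16 : 16 * w ≤ k := by
      have h1 : w * 2 ≤ w * t := Nat.mul_le_mul_left _ ht3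
      omega
    have hB5 : 5 * k ≤ 4 * (B + 1) := by
      by_contra h
      have h1 : 4 * (B + 1) + 1 ≤ 5 * k := by omega
      have h2 : (4 * (B + 1) + 1) * t ≤ 5 * k * t := Nat.mul_le_mul_right _ h1
      have h3 : (4 * (B + 1) + 1) * t = 4 * ((B + 1) * t) + t := by ring
      have h4 : 5 * k * t = 5 * (k * t) := by ring
      omega
    have hAk : k ≤ B - w := by omega
    obtain ⟨p, hp, hp1, hp2⟩ := hN₁ k (by omega) (B - w) B hAk (by omega) (by omega) (by
      have h1 : ((B - w : ℕ) : ℝ) = B - w := Nat.cast_sub (by omega)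
      rw [h1]
      have htr : (t : ℝ) ≤ 3 / 4 * l ^ 14 := by
        have h2 : (2 * k * t : ℝ) ≤ n + 2 * k := by
          have : ((2 * k * t : ℕ) : ℝ) ≤ ((n + 2 * k : ℕ) : ℝ) := by exact_mod_cast (by omega : 2 * k * t ≤ n + 2 * k)
          push_cast at this; exact this
        have h3 : (2 * k * t : ℝ) ≤ k * l ^ 14 + 2 * k := by linarith
        have h4 : 2 * (t : ℝ) ≤ l ^ 14 + 2 := by
          have h5 : (k : ℝ) * (2 * t) ≤ k * (l ^ 14 + 2) := by nlinarith
          exact le_of_mul_le_mul_left h5 hk0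
        linarith
      have htpos : (0 : ℝ) < t := by exact_mod_cast ht0
      have h6 : (k : ℝ) / (8 * t) < w + 1 := by
        rw [div_lt_iff₀ (by positivity)]
        have h7 : k < (w + 1) * (8 * t) := by
          have h8 := Nat.div_add_mod k (8 * t)
          have h9 := Nat.mod_lt k (show 0 < 8 * t by omega)
          rw [← hw] at h8
          have h10 : (w + 1) * (8 * t) = 8 * t * w + 8 * t := by ring
          omega
        exact_mod_cast h7
      have h7 : (k : ℝ) / (6 * l ^ 14) ≤ k / (8 * t) := by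
        apply div_le_div_of_nonneg_left hk0.le (by positivity)
        linarith
      have h8 : (1 : ℝ) ≤ k / (10 * l ^ 14) := by
        rw [le_div_iff₀ (by positivity)]; linarith
      have h9 : (k : ℝ) / (6 * l ^ 14) - k / (10 * l ^ 14) = (1 / 15) * (k / l ^ 14) := by
        field_simp; norm_num
      have h10 : (k : ℝ) / (16 * l ^ 14) = (1 / 16) * (k / l ^ 14) := by field_simp
      have h11 : 0 ≤ (k : ℝ) / l ^ 14 := by positivity
      have h12 : (B : ℝ) - (B - w) = w := by ring
      rw [h12, h10]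
      linarith)
    refine good_mult hg (p := p) (t := t) hp (by omega) (by omega) ?_ ?_
    · have h1 : (B - w + 1) * t ≤ p * t := Nat.mul_le_mul_right _ (by omega)
      have h2 : (B - w + 1) * t + w * t = (B + 1) * t := by
        rw [← add_mul]; congr 1; omega
      omega
    · have h1 : p * t ≤ B * t := Nat.mul_le_mul_right _ hp2
      omega

theorem lower_bound (d : ℕ) : ∃ k₀ : ℕ, ∀ k : ℕ, k₀ ≤ k → ∀ n : ℕ, Good k n → k ^ d < n := by
  obtain ⟨k₁, h₁⟩ := large_range d
  obtain ⟨k₂, h₂⟩ := small_range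
  refine ⟨k₁ + k₂, fun k hk n hg => ?_⟩
  by_contra hc
  rw [not_lt] at hc
  have h3 := h₁ k (by omega) n hg (by exact_mod_cast hc)
  have h4 := h₂ k (by omega) n hg
  linarith

end Pool.Agent.H895R3.NK
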